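import Mathlib

set_option autoImplicit false
open MvPolynomial Module

namespace Pool.Agent.H.MP_a68a03_ag

theorem ext_hom {R B Ω : Type*} [CommRing R] [CommRing B] [Field Ω] [IsAlgClosed Ω] (f : R →+* B)
    (hf : f.IsIntegral) (φ : R →+* Ω) (h : RingHom.ker f ≤ RingHom.ker φ) :
    ∃ ψ : B →+* Ω, ∀ r, ψ (f r) = φ r := by
  letI := f.toAlgebra
  haveI : Algebra.IsIntegral R B := ⟨hf⟩
  haveI := RingHom.ker_isPrime φ
  obtain ⟨P, -, hP, hc⟩ := Ideal.exists_ideal_over_prime_of_isIntegral (RingHom.ker φ) (⊥ : Ideal B) h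
  let l : (R ⧸ P.comap (algebraMap R B)) →+* Ω :=
    Ideal.Quotient.lift _ φ (fun a ha => by rwa [hc] at ha)
  letI : Algebra (R ⧸ P.comap (algebraMap R B)) Ω := l.toAlgebra
  haveI : FaithfulSMul (R ⧸ P.comap (algebraMap R B)) Ω := by
    rw [faithfulSMul_iff_algebraMap_injective]
    exact RingHom.lift_injective_of_ker_le_ideal _ _ hc.ge
  haveI : FaithfulSMul (R ⧸ P.comap (algebraMap R B)) (B ⧸ P) := by
    rw [faithfulSMul_iff_algebraMap_injective]
    exact Ideal.algebraMap_quotient_injective
  let g : (B ⧸ P) →ₐ[R ⧸ P.comap (algebraMap R B)] Ω := IsAlgClosed.lift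
  exact ⟨g.toRingHom.comp (Ideal.Quotient.mk P), fun r => g.commutes (Ideal.Quotient.mk _ r)⟩

variable {K : Type*} [Field K] {σ τ : Type*}

theorem dg {f : MvPolynomial σ K} {k : ℕ} (h : f.IsHomogeneous k) {s : σ →₀ ℕ} (hs : coeff s f ≠ 0) :
    s.degree = k := by
  rw [Finsupp.degree_eq_weight_one]; exact h hs

theorem fr (K : Type*) [Field K] (σ : Type*) [Fintype σ] [DecidableEq σ] (d : ℕ) :
    finrank K (homogeneousSubmodule σ K d) = ((Finset.univ : Finset σ).finsuppAntidiag d).card := by
  classical
  have e : homogeneousSubmodule σ K d = Submodule.span K (Set.range fun s :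
      (Finset.univ : Finset σ).finsuppAntidiag d => (monomial s.1 (1 : K) : MvPolynomial σ K)) := by
    refine le_antisymm (fun F hF => ?_) (Submodule.span_le.mpr ?_)
    · rw [F.as_sum]
      refine Submodule.sum_mem _ fun s hs => ?_
      rw [← mul_one (coeff s F), ← smul_eq_mul, ← smul_monomial]
      refine Submodule.smul_mem _ _ (Submodule.subset_span ⟨⟨s, ?_⟩, rfl⟩)
      simpa [Finsupp.degree_eq_sum] using dg hF (mem_support_iff.mp hs)
    · rintro _ ⟨⟨s, hs⟩, rfl⟩
      refine isHomogeneous_monomial _ ?_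
      simpa [Finsupp.degree_eq_sum] using hs
  have li : LinearIndependent K fun s : (Finset.univ : Finset σ).finsuppAntidiag d =>
      (monomial s.1 (1 : K) : MvPolynomial σ K) :=
    (basisMonomials σ K).linearIndependent.comp _ Subtype.val_injective
  rw [e, finrank_span_eq_card li, Fintype.card_coe]

instance [Finite σ] (d : ℕ) : Module.Finite K (homogeneousSubmodule σ K d) :=
  Module.Finite.iff_fg.mpr (homogeneousSubmodule_fg σ K d)

theorem rk {V W : Type*} [AddCommGroup V] [Module K V] [AddCommGroup W] [Module K W] (p : Submodule K V)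
    [Module.Finite K p] (f : V →ₗ[K] W) :
    finrank K (p.map f) + finrank K ↥(p ⊓ LinearMap.ker f) = finrank K p := by
  rw [← LinearMap.range_domRestrict, ← (f.domRestrict p).finrank_range_add_finrank_ker,
    LinearMap.ker_domRestrict, ← Submodule.map_comap_subtype, Submodule.finrank_map_subtype_eq]

attribute [local instance] MvPolynomial.gradedAlgebra in
theorem hc_mul {l : MvPolynomial σ K} {a : ℕ} (hl : l.IsHomogeneous a) (q : MvPolynomial σ K) (k : ℕ) :
    homogeneousComponent (a + k) (l * q) = l * homogeneousComponent k q := by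
  have := DirectSum.coe_decompose_mul_add_of_left_mem (homogeneousSubmodule σ K) (b := q) (j := k) hl
  rwa [show ∀ (p : MvPolynomial σ K) i, (DirectSum.decompose (homogeneousSubmodule σ K) p i :
    MvPolynomial σ K) = homogeneousComponent i p from decomposition.decompose'_apply,
    show ∀ (p : MvPolynomial σ K) i, (DirectSum.decompose (homogeneousSubmodule σ K) p i :
    MvPolynomial σ K) = homogeneousComponent i p from decomposition.decompose'_apply] at this

theorem hc_aeval (u : τ → MvPolynomial σ K) (hu : ∀ i, (u i).IsHomogeneous 1) (G : MvPolynomial τ K)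
    (e : ℕ) : homogeneousComponent e (aeval u G) = aeval u (homogeneousComponent e G) := by
  classical
  have h : ∀ j, (aeval u (homogeneousComponent j G)).IsHomogeneous j := fun j => by
    simpa using (homogeneousComponent_isHomogeneous j G).aeval u hu
  conv_lhs => rw [← sum_homogeneousComponent G, map_sum, map_sum]
  rw [Finset.sum_congr rfl fun j _ => homogeneousComponent_of_mem (m := e) (h j), Finset.sum_ite_eq]
  split_ifs with h'
  · rfl
  · rw [homogeneousComponent_eq_zero _ _ (by simpa using h'), map_zero]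

theorem lead {A : Type*} [CommRing A] [Algebra K A] (a : τ → A) (c : τ → K) {G : MvPolynomial τ K}
    {e : ℕ} (hG : G.IsHomogeneous e) :
    (aeval (fun i => Polynomial.C (a i) + Polynomial.C (algebraMap K A (c i)) * Polynomial.X) G).natDegree ≤ e ∧
    (aeval (fun i => Polynomial.C (a i) + Polynomial.C (algebraMap K A (c i)) * Polynomial.X) G).coeff e
      = algebraMap K A (eval c G) := by
  set θ : τ → Polynomial A := fun i => Polynomial.C (a i) + Polynomial.C (algebraMap K A (c i)) * Polynomial.X
  have h1 : ∀ i, (θ i).natDegree ≤ 1 := fun i => by simp only [θ]; compute_degree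
  have h2 : ∀ i, (θ i).coeff 1 = algebraMap K A (c i) := fun i => by simp [θ]
  have hm : ∀ s : τ →₀ ℕ, (aeval θ (monomial s (1 : K))).natDegree ≤ s.degree ∧
      (aeval θ (monomial s (1 : K))).coeff s.degree = algebraMap K A (eval c (monomial s (1 : K))) := by
    intro s
    induction s using Finsupp.induction_linear with
    | zero => simp
    | add s t hs ht =>
      rw [show monomial (s + t) (1 : K) = monomial s 1 * monomial t 1 by rw [monomial_mul, one_mul],
        map_mul, map_mul, map_mul, map_add]
      exact ⟨Polynomial.natDegree_mul_le.trans (add_le_add hs.1 ht.1),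
        by rw [Polynomial.coeff_mul_add_eq_of_natDegree_le hs.1 ht.1, hs.2, ht.2]⟩
    | single i k =>
      rw [← X_pow_eq_monomial, map_pow, aeval_X, Finsupp.degree_single, map_pow, eval_X, map_pow, ← h2]
      exact ⟨by simpa using Polynomial.natDegree_pow_le_of_le k (h1 i),
        by simpa using Polynomial.coeff_pow_of_natDegree_le (m := k) (h1 i)⟩
  have e1 : G = ∑ s ∈ G.support, coeff s G • monomial s (1 : K) := by
    conv_lhs => rw [G.as_sum]
    simp [smul_monomial]
  rw [e1, map_sum, map_sum, map_sum, Polynomial.finset_sum_coeff]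
  refine ⟨Polynomial.natDegree_sum_le_of_forall_le _ _ fun s hs => ?_, Finset.sum_congr rfl fun s hs => ?_⟩
  · rw [map_smul, ← dg hG (mem_support_iff.mp hs)]
    exact (Polynomial.natDegree_smul_le _ _).trans (hm s).1
  · rw [map_smul, ← dg hG (mem_support_iff.mp hs), Polynomial.coeff_smul, (hm s).2, smul_eval, map_mul,
      Algebra.smul_def]

/-- Closed under taking homogeneous components. -/
def Hg (Q : Ideal (MvPolynomial σ K)) : Prop := ∀ f ∈ Q, ∀ i, homogeneousComponent i f ∈ Q

/-- The map from the polynomial ring in `u` to the quotient. -/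
noncomputable def gm (Q : Ideal (MvPolynomial σ K)) (u : τ → MvPolynomial σ K) :
    MvPolynomial τ K →ₐ[K] MvPolynomial σ K ⧸ Q := (Ideal.Quotient.mkₐ K Q).comp (aeval u)

theorem gm_eq_zero (Q : Ideal (MvPolynomial σ K)) (u : τ → MvPolynomial σ K) (G : MvPolynomial τ K) :
    gm Q u G = 0 ↔ aeval u G ∈ Q := Ideal.Quotient.eq_zero_iff_mem

theorem gm_apply (Q : Ideal (MvPolynomial σ K)) (u : τ → MvPolynomial σ K) (G : MvPolynomial τ K) :
    gm Q u G = Ideal.Quotient.mk Q (aeval u G) := rfl

theorem noether_aux [Infinite K] (Q : Ideal (MvPolynomial σ K)) (hQ : Q ≠ ⊤) (hh : Hg Q) (s : ℕ) :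
    ∀ u : Fin s → MvPolynomial σ K, (∀ i, (u i).IsHomogeneous 1) → (gm Q u).toRingHom.IsIntegral →
    ∃ n, ∃ u : Fin n → MvPolynomial σ K, (∀ i, (u i).IsHomogeneous 1) ∧ Function.Injective (gm Q u) ∧
      (gm Q u).toRingHom.IsIntegral := by
  induction s with
  | zero =>
    intro u hu hi
    haveI := Ideal.Quotient.nontrivial_iff.mpr hQ
    refine ⟨0, u, hu, (injective_iff_map_eq_zero _).mpr fun G hG => ?_, hi⟩
    rw [G.eq_C_of_isEmpty] at hG ⊢
    rw [← algebraMap_eq, AlgHom.commutes, map_eq_zero] at hG
    rw [hG, map_zero]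
  | succ s ih =>
    intro u hu hi
    by_cases hinj : Function.Injective (gm Q u)
    · exact ⟨_, u, hu, hinj, hi⟩
    rw [injective_iff_map_eq_zero] at hinj
    push Not at hinj
    obtain ⟨G0, h0, hG0⟩ := hinj
    obtain ⟨e, he⟩ : ∃ e, homogeneousComponent e G0 ≠ 0 := by
      by_contra! h
      exact hG0 (by rw [← sum_homogeneousComponent G0]; simp [h])
    set G := homogeneousComponent e G0
    have hG : G.IsHomogeneous e := homogeneousComponent_isHomogeneous e G0
    have hGQ : gm Q u G = 0 := by
      refine (gm_eq_zero Q u _).mpr ?_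
      rw [← hc_aeval u hu]
      exact hh _ ((gm_eq_zero Q u _).mp h0) e
    obtain ⟨c, hc⟩ : ∃ c : Fin (s + 1) → K, eval c (X 0 * G) ≠ 0 := by
      by_contra! h
      exact mul_ne_zero (X_ne_zero 0) he (MvPolynomial.funext fun x => by rw [h, map_zero])
    rw [map_mul, eval_X, mul_ne_zero_iff] at hc
    set w := C (c 0)⁻¹ * u 0 with hw
    let u' : Fin s → MvPolynomial σ K := fun i => u i.succ - C (c i.succ) * w
    have hw1 : w.IsHomogeneous 1 := (hu 0).C_mul _
    refine ih u' (fun i => (hu _).sub (hw1.C_mul _)) ?_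
    letI : Algebra (MvPolynomial (Fin s) K) (MvPolynomial σ K ⧸ Q) := (gm Q u').toRingHom.toAlgebra
    haveI : IsScalarTower K (MvPolynomial (Fin s) K) (MvPolynomial σ K ⧸ Q) :=
      IsScalarTower.of_algebraMap_eq fun r => ((gm Q u').commutes r).symm
    let a : Fin (s + 1) → MvPolynomial (Fin s) K := Fin.cons 0 X
    have hu' : ∀ i, Ideal.Quotient.mk Q (u i) = algebraMap _ _ (a i) + algebraMap K _ (c i) *
        Ideal.Quotient.mk Q w := by
      intro i
      refine Fin.cases ?_ (fun i => ?_) i
      · simp only [a, Fin.cons_zero, map_zero, zero_add]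
        rw [← Ideal.Quotient.mk_algebraMap, ← map_mul, hw, algebraMap_eq, ← mul_assoc, ← map_mul,
          mul_inv_cancel₀ hc.1, map_one, one_mul]
      · simp only [a, Fin.cons_succ]
        rw [← Ideal.Quotient.mk_algebraMap, ← map_mul, algebraMap_eq]
        change _ = Ideal.Quotient.mk Q (aeval u' (X i : MvPolynomial (Fin s) K)) + _
        rw [aeval_X, ← map_add]; simp [u']
    have hwi : IsIntegral (MvPolynomial (Fin s) K) (Ideal.Quotient.mk Q w) := by
      obtain ⟨l1, l2⟩ := lead a c hG
      set p := aeval (fun i => Polynomial.C (a i) + Polynomial.C (algebraMap K _ (c i)) * Polynomial.X) G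
      refine ⟨(eval c G)⁻¹ • p, Polynomial.monic_of_natDegree_le_of_coeff_eq_one e
        ((Polynomial.natDegree_smul_le _ _).trans l1) ?_, ?_⟩
      · rw [Polynomial.coeff_smul, l2, Algebra.smul_def, ← map_mul, inv_mul_cancel₀ hc.2, map_one]
      · rw [← Polynomial.aeval_def]
        have : (Polynomial.aeval (Ideal.Quotient.mk Q w)).restrictScalars K p = 0 := by
          rw [← hGQ, ← AlgHom.comp_apply]
          congr 1
          refine MvPolynomial.algHom_ext fun i => ?_
          rw [gm_apply, aeval_X, hu' i, AlgHom.comp_apply, aeval_X, AlgHom.restrictScalars_apply, map_add,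
            map_mul (Polynomial.aeval _), Polynomial.aeval_C, Polynomial.aeval_C, Polynomial.aeval_X,
            ← IsScalarTower.algebraMap_apply]
        exact (map_smul ((Polynomial.aeval (Ideal.Quotient.mk Q w)).restrictScalars K) _ p).trans
          (by rw [this, smul_zero])
    let Cl := integralClosure (MvPolynomial (Fin s) K) (MvPolynomial σ K ⧸ Q)
    have hmem : ∀ x, (gm Q u).toRingHom x ∈ Cl := by
      intro x
      change gm Q u x ∈ Cl
      induction x using MvPolynomial.induction_on with
      | C r =>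
        rw [← algebraMap_eq, AlgHom.commutes, IsScalarTower.algebraMap_apply K (MvPolynomial (Fin s) K)]
        exact Cl.algebraMap_mem _
      | add p q hp hq => rw [map_add]; exact add_mem hp hq
      | mul_X p i hp =>
        rw [map_mul]
        refine mul_mem hp ?_
        have : gm Q u (X i) = Ideal.Quotient.mk Q (u i) := by simp [gm]
        rw [this, hu', IsScalarTower.algebraMap_apply K (MvPolynomial (Fin s) K)]
        exact add_mem (Cl.algebraMap_mem _) (mul_mem (Cl.algebraMap_mem _) hwi)
    have h1 : (Cl.val.toRingHom).IsIntegral :=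
      RingHom.IsIntegral.tower_top ((gm Q u).toRingHom.codRestrict Cl hmem) _ hi
    exact RingHom.IsIntegral.trans (algebraMap (MvPolynomial (Fin s) K) Cl) _
      (integralClosure.AlgebraIsIntegral.isIntegral) h1

theorem noether [Infinite K] {N : ℕ} (Q : Ideal (MvPolynomial (Fin N) K)) (hQ : Q ≠ ⊤) (hh : Hg Q) :
    ∃ n, ∃ u : Fin n → MvPolynomial (Fin N) K, (∀ i, (u i).IsHomogeneous 1) ∧
      Function.Injective (gm Q u) ∧ (gm Q u).toRingHom.IsIntegral := by
  refine noether_aux Q hQ hh N X (isHomogeneous_X K) (RingHom.isIntegral_of_surjective _ ?_)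
  intro b
  obtain ⟨b, rfl⟩ := Ideal.Quotient.mk_surjective b
  exact ⟨b, by simp [gm]⟩

end Pool.Agent.H.MP_a68a03_ag
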