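import Pool.Agent.H.MP_a68a03_ag.A

set_option autoImplicit false
open MvPolynomial Module

namespace Pool.Agent.H.MP_a68a03_ag
universe v
variable {K : Type v} [Field K] {N n : ℕ}

abbrev S (N : ℕ) (K : Type v) [Field K] := MvPolynomial (Fin N) K

noncomputable def ev (u : Fin n → S N K) (y : S N K) : Polynomial (S n K) →+* S N K :=
  Polynomial.eval₂RingHom (aeval u : S n K →ₐ[K] S N K).toRingHom y

theorem ev_monomial (u : Fin n → S N K) (y : S N K) (i : ℕ) (a : S n K) :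
    ev u y (Polynomial.monomial i a) = aeval u a * y ^ i := by
  simp [ev, Polynomial.eval₂_monomial]

theorem ev_C (u : Fin n → S N K) (y : S N K) (a : S n K) : ev u y (Polynomial.C a) = aeval u a := by
  simp [ev]

theorem trdeg_of {B : Type v} [CommRing B] [IsDomain B] [Algebra K B] (g : S n K →ₐ[K] B)
    (hi : Function.Injective g) (hg : g.toRingHom.IsIntegral) : Algebra.trdeg K B = n := by
  letI : Algebra (S n K) B := g.toRingHom.toAlgebra
  haveI : IsScalarTower K (S n K) B := IsScalarTower.of_algebraMap_eq fun r => (g.commutes r).symm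
  haveI : FaithfulSMul (S n K) B := (faithfulSMul_iff_algebraMap_injective _ _).mpr hi
  haveI : Algebra.IsIntegral (S n K) B := ⟨hg⟩
  rw [← trdeg_add_eq K (S n K) (A := B), trdeg_eq_zero (R := S n K)]
  simp

theorem mp (Q : Ideal (S N K)) [Q.IsPrime] (hh : Hg Q) (u : Fin n → S N K)
    (hu : ∀ i, (u i).IsHomogeneous 1) (hi : Function.Injective (gm Q u))
    (hg : (gm Q u).toRingHom.IsIntegral) (y : S N K) (hy : y.IsHomogeneous 1) :
    ∃ μ : Polynomial (S n K), 1 ≤ μ.natDegree ∧ μ.Monic ∧ (ev u y μ).IsHomogeneous μ.natDegree ∧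
      ∀ q, ev u y q ∈ Q ↔ μ ∣ q := by
  letI : Algebra (S n K) (S N K ⧸ Q) := (gm Q u).toRingHom.toAlgebra
  haveI : FaithfulSMul (S n K) (S N K ⧸ Q) := (faithfulSMul_iff_algebraMap_injective _ _).mpr hi
  have hy' : IsIntegral (S n K) (Ideal.Quotient.mk Q y) := hg _
  set μ := minpoly (S n K) (Ideal.Quotient.mk Q y)
  have hm : μ.Monic := minpoly.monic hy'
  have hd : ∀ q, ev u y q ∈ Q ↔ μ ∣ q := by
    intro q
    rw [← minpoly.isIntegrallyClosed_dvd_iff hy', ← Ideal.Quotient.eq_zero_iff_mem, ev,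
      Polynomial.coe_eval₂RingHom, Polynomial.hom_eval₂]
    rfl
  set δ := μ.natDegree
  let μ' : Polynomial (S n K) :=
    ∑ i ∈ Finset.range (δ + 1), Polynomial.monomial i (homogeneousComponent (δ - i) (μ.coeff i))
  have hco : ∀ i, μ'.coeff i = homogeneousComponent (δ - i) (μ.coeff i) := by
    intro i
    simp only [μ', Polynomial.finset_sum_coeff, Polynomial.coeff_monomial, Finset.sum_ite_eq',
      Finset.mem_range]
    split_ifs with h
    · rfl
    · rw [Polynomial.coeff_eq_zero_of_natDegree_lt (by omega), map_zero]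
  have he : ev u y μ' = homogeneousComponent δ (ev u y μ) := by
    conv_rhs => rw [μ.as_sum_range, map_sum, map_sum]
    rw [map_sum]
    refine Finset.sum_congr rfl fun i hi => ?_
    have hi' : i + (δ - i) = δ := by have := Finset.mem_range.mp hi; omega
    have := hc_mul (by simpa using hy.pow i) (aeval u (μ.coeff i)) (δ - i)
    rw [hi'] at this
    rw [ev_monomial, ev_monomial, mul_comm (aeval u (μ.coeff i)), this, hc_aeval u hu, mul_comm]
  have hle : μ'.natDegree ≤ δ := Polynomial.natDegree_le_iff_coeff_eq_zero.mpr fun i hi => by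
    rw [hco, Polynomial.coeff_eq_zero_of_natDegree_lt hi, map_zero]
  have hm' : μ'.Monic := Polynomial.monic_of_natDegree_le_of_coeff_eq_one δ hle (by
    rw [hco, hm.coeff_natDegree, Nat.sub_self]; simp)
  have : μ' = μ := Polynomial.eq_of_monic_of_dvd_of_natDegree_le hm hm'
    ((hd _).mp (he ▸ hh _ ((hd _).mpr dvd_rfl) δ)) hle
  refine ⟨μ, minpoly.natDegree_pos hy', hm, ?_, hd⟩
  rw [this] at he
  rw [he]
  exact homogeneousComponent_isHomogeneous _ _

/-- Dimension of the space of forms of degree `d`. -/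
noncomputable def hv (K : Type v) [Field K] (n d : ℕ) : ℕ := finrank K (homogeneousSubmodule (Fin n) K d)

/-- Dimension of the degree `d` part of an ideal. -/
noncomputable def cd (I : Ideal (S N K)) (d : ℕ) : ℕ :=
  finrank K ↥(homogeneousSubmodule (Fin N) K d ⊓ LinearMap.ker (Ideal.Quotient.mkₐ K I).toLinearMap)

noncomputable def GG (K : Type v) [Field K] (n δ d : ℕ) : ℕ :=
  ∑ i ∈ Finset.range (min δ (d + 1)), hv K n (d - i)

theorem lb (Q : Ideal (S N K)) (u : Fin n → S N K) (hu : ∀ i, (u i).IsHomogeneous 1) (y : S N K)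
    (hy : y.IsHomogeneous 1) (μ : Polynomial (S n K)) (hd : ∀ q, ev u y q ∈ Q ↔ μ ∣ q) (d : ℕ) :
    GG K n μ.natDegree d + cd Q d ≤ hv K N d := by
  classical
  set M := min μ.natDegree (d + 1)
  let Φ : ((i : Fin M) → homogeneousSubmodule (Fin n) K (d - i)) →ₗ[K] S N K ⧸ Q :=
    (Ideal.Quotient.mkₐ K Q).toLinearMap ∘ₗ ∑ i : Fin M, LinearMap.mulRight K (y ^ (i : ℕ)) ∘ₗ
      (aeval u : S n K →ₐ[K] S N K).toLinearMap ∘ₗ (homogeneousSubmodule (Fin n) K (d - i)).subtype ∘ₗ
        LinearMap.proj i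
  have hΦ : ∀ p, Φ p = Ideal.Quotient.mk Q (∑ i : Fin M, aeval u (p i : S n K) * y ^ (i : ℕ)) := by
    intro p; simp [Φ]
  have hinj : Function.Injective Φ := by
    rw [injective_iff_map_eq_zero]
    intro p hp
    rw [hΦ, Ideal.Quotient.eq_zero_iff_mem] at hp
    let q : Polynomial (S n K) := ∑ i : Fin M, Polynomial.monomial i (p i : S n K)
    have hq : μ ∣ q := (hd q).mp (by simpa only [q, map_sum, ev_monomial] using hp)
    have h0 : q = 0 := by
      by_contra h
      have h1 := Polynomial.natDegree_le_of_dvd hq h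
      have h2 := Polynomial.leadingCoeff_ne_zero.mpr h
      refine h2 ?_
      simp only [Polynomial.leadingCoeff]
      conv_lhs => rw [show q.coeff = fun k => ∑ i : Fin M, (Polynomial.monomial i (p i : S n K)).coeff k from
        funext fun k => Polynomial.finset_sum_coeff _ _ _]
      refine Finset.sum_eq_zero fun i _ => ?_
      rw [Polynomial.coeff_monomial, if_neg]
      have := i.2
      omega
    funext j
    have := congrArg (Polynomial.coeff · j) h0
    simp only [q, Polynomial.finset_sum_coeff, Polynomial.coeff_monomial, Fin.val_inj, Finset.sum_ite_eq',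
      Finset.mem_univ, if_true, Polynomial.coeff_zero] at this
    exact Subtype.ext this
  have hr : LinearMap.range Φ ≤ (homogeneousSubmodule (Fin N) K d).map (Ideal.Quotient.mkₐ K Q).toLinearMap := by
    rintro _ ⟨p, rfl⟩
    refine ⟨∑ i : Fin M, aeval u (p i : S n K) * y ^ (i : ℕ), Submodule.sum_mem _ fun i _ => ?_, (hΦ p).symm⟩
    have := (IsHomogeneous.aeval (p i).2 u hu).mul (hy.pow i)
    have h2 := i.2
    rwa [show 1 * (d - i) + 1 * i = d by omega] at this
  have h1 := Submodule.finrank_mono hr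
  rw [LinearMap.finrank_range_of_inj hinj, finrank_pi_fintype] at h1
  have h2 := rk (homogeneousSubmodule (Fin N) K d) (Ideal.Quotient.mkₐ K Q).toLinearMap
  rw [GG, ← Fin.sum_univ_eq_sum_range (fun i => hv K n (d - i))]
  exact (Nat.add_le_add_right h1 _).trans h2.le

noncomputable def lin (K : Type v) [Field K] (N : ℕ) : (Fin N → K) →ₗ[K] S N K :=
  Fintype.linearCombination K X

theorem lin_hom (c : Fin N → K) : (lin K N c).IsHomogeneous 1 := by
  rw [lin, Fintype.linearCombination_apply]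
  exact Submodule.sum_mem (homogeneousSubmodule (Fin N) K 1) fun i _ =>
    Submodule.smul_mem _ _ (isHomogeneous_X K i)

theorem bad_aux (Q : Ideal (S N K)) (u : Fin n → S N K) (hg : (gm Q u).toRingHom.IsIntegral)
    {Ω : Type*} [Field Ω] [IsAlgClosed Ω] [Algebra K Ω] (ξ : S N K →ₐ[K] Ω) (hQ : ∃ f ∈ Q, ξ f ≠ 0) :
    ∃ s : Finset (Submodule K (Fin N → K)), ⊤ ∉ s ∧ ∀ c μ, (∀ q, ev u (lin K N c) q ∈ Q ↔ μ ∣ q) →
      ξ (ev u (lin K N c) μ) = 0 → ∃ p ∈ s, c ∈ p := by
  classical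
  let T : Set (Fin N → Ω) := {t | (∀ f ∈ Q, aeval t f = 0) ∧ ∀ i, aeval t (u i) = ξ (u i)}
  have hT : T.Finite := by
    choose p hp hp' using fun l => hg (Ideal.Quotient.mk Q (X l))
    let φ := ξ.toRingHom.comp (aeval u : S n K →ₐ[K] S N K).toRingHom
    refine (Set.Finite.pi' fun l => (((p l).map φ).roots.toFinset.finite_toSet)).subset fun t ht l => ?_
    have h1 : ev u (X l) (p l) ∈ Q := by
      rw [← Ideal.Quotient.eq_zero_iff_mem, ev, Polynomial.coe_eval₂RingHom, Polynomial.hom_eval₂]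
      exact hp' l
    have h2 := ht.1 _ h1
    rw [ev, Polynomial.coe_eval₂RingHom, ← AlgHom.coe_toRingHom, Polynomial.hom_eval₂] at h2
    have h3 : ((aeval t : S N K →ₐ[K] Ω) : S N K →+* Ω).comp (aeval u : S n K →ₐ[K] S N K).toRingHom = φ := by
      refine MvPolynomial.ringHom_ext (fun r => ?_) (fun i => ?_)
      · simp [φ]
      · simpa [φ] using ht.2 i
    rw [h3] at h2
    simpa [Polynomial.mem_roots ((hp l).map φ).ne_zero, Polynomial.eval_map] using h2
  let W : (Fin N → Ω) → Submodule K (Fin N → K) := fun t =>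
    LinearMap.eqLocus ((aeval t : S N K →ₐ[K] Ω).toLinearMap ∘ₗ lin K N) (ξ.toLinearMap ∘ₗ lin K N)
  refine ⟨hT.toFinset.image W, fun h => ?_, fun c μ hd h0 => ?_⟩
  · obtain ⟨t, ht, hW⟩ := Finset.mem_image.mp h
    obtain ⟨f, hf, hf'⟩ := hQ
    have : aeval t = ξ := MvPolynomial.algHom_ext fun l => by
      have : Pi.single l 1 ∈ W t := hW ▸ Submodule.mem_top
      simpa [W, lin] using this
    exact hf' (this ▸ (hT.mem_toFinset.mp ht).1 f hf)
  · obtain ⟨ψ, hψ⟩ := ext_hom ((Ideal.Quotient.mk Q).comp (ev u (lin K N c)))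
      (RingHom.IsIntegral.tower_top Polynomial.C _ (by
        rwa [show ((Ideal.Quotient.mk Q).comp (ev u (lin K N c))).comp Polynomial.C = (gm Q u).toRingHom from
          RingHom.ext fun a => congrArg (Ideal.Quotient.mk Q) (ev_C u _ a)]))
      (ξ.toRingHom.comp (ev u (lin K N c))) (fun q hq => by
        obtain ⟨r, rfl⟩ := (hd q).mp (Ideal.Quotient.eq_zero_iff_mem.mp hq)
        change ξ (ev u _ (μ * r)) = 0
        rw [map_mul, map_mul, h0, zero_mul])
    let t : Fin N → Ω := fun l => ψ (Ideal.Quotient.mk Q (X l))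
    have hu : ∀ a, ψ (Ideal.Quotient.mk Q (aeval u a)) = ξ (aeval u a) := fun a => by
      rw [← ev_C u (lin K N c)]; exact hψ (Polynomial.C a)
    have ht : ∀ f, aeval t f = ψ (Ideal.Quotient.mk Q f) := by
      intro f
      induction f using MvPolynomial.induction_on with
      | C r => simpa using (hu (C r)).symm
      | add p q hp hq => simp [hp, hq]
      | mul_X p i hp => simp [hp, t]
    refine ⟨W t, Finset.mem_image_of_mem _ (hT.mem_toFinset.mpr ⟨fun f hf => ?_, fun i => ?_⟩), ?_⟩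
    · rw [ht, Ideal.Quotient.eq_zero_iff_mem.mpr hf, map_zero]
    · simpa [ht] using hu (X i)
    · change aeval t (lin K N c) = ξ (lin K N c)
      simpa [ht, ev] using hψ Polynomial.X

theorem bad (Q : Ideal (S N K)) (u : Fin n → S N K) (hg : (gm Q u).toRingHom.IsIntegral)
    (Q' : Ideal (S N K)) [Q'.IsPrime] (hQ : ¬ Q ≤ Q') :
    ∃ s : Finset (Submodule K (Fin N → K)), ⊤ ∉ s ∧ ∀ c μ, (∀ q, ev u (lin K N c) q ∈ Q ↔ μ ∣ q) →
      ev u (lin K N c) μ ∈ Q' → ∃ p ∈ s, c ∈ p := by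
  let Ω := AlgebraicClosure (FractionRing (S N K ⧸ Q'))
  let ξ : S N K →ₐ[K] Ω := (IsScalarTower.toAlgHom K (S N K ⧸ Q') Ω).comp (Ideal.Quotient.mkₐ K Q')
  have hξ : ∀ f, ξ f = 0 ↔ f ∈ Q' := fun f => by
    rw [← Ideal.Quotient.eq_zero_iff_mem]
    refine map_eq_zero_iff (algebraMap (S N K ⧸ Q') Ω) ?_
    rw [IsScalarTower.algebraMap_eq (S N K ⧸ Q') (FractionRing (S N K ⧸ Q')) Ω]
    exact (algebraMap (FractionRing (S N K ⧸ Q')) Ω).injective.comp (IsFractionRing.injective _ _)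
  obtain ⟨f, hf, hf'⟩ := SetLike.not_le_iff_exists.mp hQ
  obtain ⟨s, hs, h⟩ := bad_aux Q u hg ξ ⟨f, hf, mt (hξ f).mp hf'⟩
  exact ⟨s, hs, fun c μ hd h0 => h c μ hd ((hξ _).mpr h0)⟩

theorem step [Infinite K] {ι : Type*} (Q : Ideal (S N K)) [hp : Q.IsPrime] (hh : Hg Q) (T : Finset ι)
    (P : ι → Ideal (S N K)) (hP : ∀ t ∈ T, (P t).IsPrime ∧ ¬ Q ≤ P t) :
    ∃ (n δ : ℕ) (F : S N K), Algebra.trdeg K (S N K ⧸ Q) = n ∧ 1 ≤ δ ∧ F.IsHomogeneous δ ∧ F ∈ Q ∧
      (∀ t ∈ T, F ∉ P t) ∧ ∀ d, GG K n δ d + cd Q d ≤ hv K N d := by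
  classical
  obtain ⟨n, u, hu, hi, hg⟩ := noether Q hp.ne_top hh
  choose s hs hs' using fun t : T => @bad _ _ _ _ Q u hg (P t) (hP t t.2).1 (hP t t.2).2
  have := Subspace.biUnion_ne_univ_of_top_notMem (s := Finset.univ.biUnion s) (by simpa using hs)
  obtain ⟨c, hc⟩ := (Set.ne_univ_iff_exists_notMem _).mp this
  obtain ⟨μ, h1, -, h3, h4⟩ := mp Q hh u hu hi hg _ (lin_hom c)
  refine ⟨n, _, _, trdeg_of _ hi hg, h1, h3, (h4 _).mpr dvd_rfl, fun t ht h => hc ?_,
    lb Q u hu _ (lin_hom c) μ h4⟩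
  obtain ⟨p, hp, hcp⟩ := hs' ⟨t, ht⟩ c μ h4 h
  exact Set.mem_biUnion (Finset.mem_coe.mpr (Finset.mem_biUnion.mpr ⟨_, Finset.mem_univ _, hp⟩)) hcp

theorem cd_step (Q J : Ideal (S N K)) {F : S N K} {δ : ℕ} (hF : F.IsHomogeneous δ) (hQ : F ∈ Q)
    (hJ : ∀ g, F * g ∈ J → g ∈ J) (e : ℕ) : cd (Q ⊓ J) (δ + e) + hv K N e ≤ cd Q (δ + e) + cd J e := by
  let m := (Ideal.Quotient.mkₐ K J).toLinearMap
  have h1 := rk (homogeneousSubmodule (Fin N) K (δ + e) ⊓
    LinearMap.ker (Ideal.Quotient.mkₐ K Q).toLinearMap) m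
  have h2 := rk (homogeneousSubmodule (Fin N) K e) m
  have h3 : homogeneousSubmodule (Fin N) K (δ + e) ⊓ LinearMap.ker (Ideal.Quotient.mkₐ K Q).toLinearMap ⊓
      LinearMap.ker m = homogeneousSubmodule (Fin N) K (δ + e) ⊓
        LinearMap.ker (Ideal.Quotient.mkₐ K (Q ⊓ J)).toLinearMap := by
    ext f
    simp [m, Ideal.Quotient.eq_zero_iff_mem, and_assoc]
  have hinj : Function.Injective (LinearMap.mulLeft K (Ideal.Quotient.mk J F)) := by
    rw [injective_iff_map_eq_zero]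
    intro g hg
    obtain ⟨g, rfl⟩ := Ideal.Quotient.mk_surjective g
    exact Ideal.Quotient.eq_zero_iff_mem.mpr (hJ g (Ideal.Quotient.eq_zero_iff_mem.mp hg))
  have h4 : ((homogeneousSubmodule (Fin N) K e).map m).map (LinearMap.mulLeft K (Ideal.Quotient.mk J F)) ≤
      (homogeneousSubmodule (Fin N) K (δ + e) ⊓ LinearMap.ker (Ideal.Quotient.mkₐ K Q).toLinearMap).map m := by
    rintro _ ⟨_, ⟨g, hg, rfl⟩, rfl⟩
    exact ⟨F * g, ⟨hF.mul hg, Ideal.Quotient.eq_zero_iff_mem.mpr (Q.mul_mem_right _ hQ)⟩, rfl⟩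
  have h5 := Submodule.finrank_mono h4
  rw [← (Submodule.equivMapOfInjective _ hinj _).finrank_eq] at h5
  rw [h3] at h1
  simp only [cd, hv, m] at *
  omega

end Pool.Agent.H.MP_a68a03_ag
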