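import Pool.Agent.H.MP_a68a03_ag.B

set_option autoImplicit false
open MvPolynomial Module

namespace Pool.Agent.H.MP_a68a03_ag
universe v
variable {K : Type v} [Field K] {m : ℕ}

def lt (β : Fin m → ℕ) (γ : Fin (m + 1) →₀ ℕ) : Prop :=
  ∃ i : Fin m, (∀ j < i, γ j.castSucc = β j) ∧ γ i.castSucc < β i

open Classical in
noncomputable def CC (β : Fin m → ℕ) (d : ℕ) : ℕ :=
  (((Finset.univ : Finset (Fin (m + 1))).finsuppAntidiag d).filter (lt β)).card

theorem hv_eq (n d : ℕ) : hv K n d = (n + d - 1).choose d := by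
  rw [hv, fr, Finset.card_finsuppAntidiag_nat_eq_choose]; simp

theorem gen (a : Fin (m + 1)) (s : Finset (Fin (m + 1))) (β β' : Fin m → ℕ) {n : ℕ} (hs : s.card ≤ n)
    (h1 : ∀ γ, lt β γ → γ a = 0 → ∀ j, j ∉ s → γ j = 0)
    (h2 : ∀ γ, lt β γ → γ a ≠ 0 → lt β' (γ - Finsupp.single a 1)) (d : ℕ) :
    CC β (d + 1) ≤ hv K n (d + 1) + CC β' d := by
  classical
  rw [CC, ← Finset.card_filter_add_card_filter_not (fun γ : Fin (m + 1) →₀ ℕ => γ a = 0)]
  refine add_le_add ?_ ?_
  · refine (Finset.card_le_card (t := s.finsuppAntidiag (d + 1)) fun γ hγ => ?_).trans ?_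
    · simp only [Finset.mem_filter, Finset.mem_finsuppAntidiag] at hγ ⊢
      have h := h1 γ hγ.1.2 hγ.2
      refine ⟨?_, fun j hj => by_contra fun h' => Finsupp.mem_support_iff.mp hj (h j h')⟩
      rw [← hγ.1.1.1]
      exact Finset.sum_subset (Finset.subset_univ _) fun j _ hj => h j hj
    · rw [Finset.card_finsuppAntidiag_nat_eq_choose, hv_eq]
      exact Nat.choose_le_choose _ (by omega)
  · refine Finset.card_le_card_of_injOn (fun γ => γ - Finsupp.single a 1) (fun γ hγ => ?_)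
      (fun γ hγ γ' hγ' h => ?_)
    · simp only [Finset.coe_filter, Finset.mem_filter, Finset.mem_finsuppAntidiag, Set.mem_ofPred_eq,
        Finset.subset_univ, and_true] at hγ ⊢
      refine ⟨?_, h2 γ hγ.1.2 hγ.2⟩
      have e : γ = γ - Finsupp.single a 1 + Finsupp.single a 1 :=
        (tsub_add_cancel_of_le (Finsupp.single_le_iff.mpr (Nat.one_le_iff_ne_zero.mpr hγ.2))).symm
      have := hγ.1.1
      rw [e] at this
      simp only [Finsupp.coe_add, Pi.add_apply, Finset.sum_add_distrib, Finsupp.single_apply,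
        Finset.sum_ite_eq, Finset.mem_univ, if_true] at this
      exact Nat.succ_injective this
    · simp only [Finset.coe_filter, Set.mem_ofPred_eq] at hγ hγ'
      exact tsub_left_inj (Finsupp.single_le_iff.mpr (Nat.one_le_iff_ne_zero.mpr hγ.2))
        (Finsupp.single_le_iff.mpr (Nat.one_le_iff_ne_zero.mpr hγ'.2)) |>.mp h

theorem lt_zero {β : Fin m → ℕ} {l : Fin m} (h : ∀ j < l, β j = 0) {γ : Fin (m + 1) →₀ ℕ} (hγ : lt β γ)
    (j : Fin (m + 1)) (hj : j < l.castSucc) : γ j = 0 := by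
  obtain ⟨i, h1, h2⟩ := hγ
  have hi : l ≤ i := not_lt.mp fun h' => by rw [h i h'] at h2; omega
  obtain ⟨j, rfl⟩ := Fin.exists_castSucc_eq.mpr (hj.trans (Fin.castSucc_lt_last l)).ne
  have hj' := Fin.castSucc_lt_castSucc_iff.mp hj
  rw [h1 j (hj'.trans_le hi), h j hj']

theorem c1 {β : Fin m → ℕ} {l : Fin m} (h : ∀ j < l, β j = 0) {n : ℕ} (hn : m - l ≤ n) (d : ℕ) :
    CC β (d + 1) ≤ hv K n (d + 1) + CC β d := by
  refine gen (Fin.last m) (Finset.Ico l.castSucc (Fin.last m)) β β (by simpa using hn)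
    (fun γ hγ h0 j hj => ?_) (fun γ hγ _ => ?_) d
  · rcases lt_or_ge j l.castSucc with h' | h'
    · exact lt_zero h hγ j h'
    · rw [Finset.mem_Ico, not_and, not_lt] at hj
      rwa [le_antisymm (Fin.le_last j) (hj h')]
  · obtain ⟨i, h1, h2⟩ := hγ
    exact ⟨i, fun j hj => by simpa [Finsupp.single_apply, (Fin.castSucc_lt_last j).ne'] using h1 j hj,
      by simpa [Finsupp.single_apply, (Fin.castSucc_lt_last i).ne'] using h2⟩

theorem c2 {β : Fin m → ℕ} {l : Fin m} (h : ∀ j < l, β j = 0) {n : ℕ} (hn : m - l ≤ n) (d : ℕ) :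
    CC (β + Pi.single l 1) (d + 1) ≤ hv K n (d + 1) + CC β d := by
  have h' : ∀ j < l, (β + Pi.single l 1 : Fin m → ℕ) j = 0 := fun j hj => by simp [h j hj, hj.ne]
  refine gen l.castSucc (Finset.Ioi l.castSucc) _ β (by simpa using hn)
    (fun γ hγ h0 j hj => ?_) (fun γ hγ h0 => ?_) d
  · rcases (not_lt.mp (mt Finset.mem_Ioi.mpr hj)).lt_or_eq with h'' | rfl
    · exact lt_zero h' hγ j h''
    · exact h0
  · obtain ⟨i, h1, h2⟩ := hγ
    refine ⟨i, fun j hj => ?_, ?_⟩
    · have := h1 j hj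
      by_cases e : l = j
      · subst e; simp at this ⊢; omega
      · simpa [Finsupp.single_apply, e, Ne.symm e] using this
    · by_cases e : l = i
      · subst e; simp at h2 ⊢; omega
      · simpa [Finsupp.single_apply, e, Ne.symm e] using h2

theorem cc_zero (β : Fin m → ℕ) (n δ : ℕ) : CC β 0 ≤ GG K n (δ + 1) 0 := by
  classical
  refine (Finset.card_filter_le _ _).trans ?_
  simp [GG, hv_eq]

theorem gg_succ (n δ d : ℕ) : GG K n (δ + 1) (d + 1) = hv K n (d + 1) + GG K n δ d := by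
  rw [GG, Nat.add_min_add_right, Finset.sum_range_succ', add_comm, GG]
  simp

theorem c3 {β : Fin m → ℕ} {l : Fin m} (h : ∀ j < l, β j = 0) {n : ℕ} (hn : m - l ≤ n) (δ : ℕ) :
    ∀ d, CC β d ≤ GG K n δ d + if δ ≤ d then CC β (d - δ) else 0 := by
  induction δ with
  | zero => simp
  | succ δ ih =>
    rintro (_ | d)
    · exact le_add_right (cc_zero β n δ)
    · have := ih d
      have := c1 (K := K) h hn d
      rw [gg_succ]
      simp only [Nat.add_le_add_iff_right, Nat.add_sub_add_right]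
      omega

theorem c4 {β : Fin m → ℕ} {l : Fin m} (h : ∀ j < l, β j = 0) {n : ℕ} (hn : m - l ≤ n) {δ : ℕ} (hδ : 1 ≤ δ)
    (d : ℕ) : CC (β + Pi.single l 1) d ≤ GG K n δ d + if δ ≤ d then CC β (d - δ) else 0 := by
  obtain ⟨δ, rfl⟩ := Nat.exists_eq_add_of_le' hδ
  rcases d with _ | d
  · exact le_add_right (cc_zero _ n δ)
  · have := c3 (K := K) h hn δ d
    have := c2 (K := K) h hn d
    rw [gg_succ]
    simp only [Nat.add_le_add_iff_right, Nat.add_sub_add_right]
    omega

theorem cd_mono {N : ℕ} {I J : Ideal (S N K)} (h : I ≤ J) (d : ℕ) : cd I d ≤ cd J d := by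
  exact Submodule.finrank_mono (inf_le_inf_left _ fun f hf =>
    Ideal.Quotient.eq_zero_iff_mem.mpr (h (Ideal.Quotient.eq_zero_iff_mem.mp hf)))

theorem ub [Infinite K] {ι : Type*} [DecidableEq ι] (Q : ι → Ideal (S (m + 1) K)) (l : ι → Fin m)
    (T : Finset ι) : (∀ t ∈ T, (Q t).IsPrime ∧ Hg (Q t) ∧
      ((m - l t : ℕ) : Cardinal) ≤ Algebra.trdeg K (S (m + 1) K ⧸ Q t)) →
    (∀ s ∈ T, ∀ t ∈ T, Q s ≤ Q t → s = t) →
    ∀ d, cd (T.inf Q) d + CC (fun j => (T.filter (l · = j)).card) d ≤ hv K (m + 1) d := by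
  induction T using Finset.induction_on_min_value l with
  | empty =>
    intro _ _ d
    have : CC (fun j => ((∅ : Finset ι).filter (l · = j)).card) d = 0 := by
      simp [CC, lt]
    rw [this]
    exact Submodule.finrank_mono inf_le_left
  | insert a T ha hmin ih =>
    intro h1 h2 d
    have ih := ih (fun t ht => h1 t (Finset.mem_insert_of_mem ht))
      (fun s hs t ht => h2 s (Finset.mem_insert_of_mem hs) t (Finset.mem_insert_of_mem ht))
    obtain ⟨hp, hh, htr⟩ := h1 a (Finset.mem_insert_self _ _)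
    obtain ⟨n, δ, F, e1, hδ, hF, hFQ, hFT, hG⟩ := step (Q a) hh T Q fun t ht =>
      ⟨(h1 t (Finset.mem_insert_of_mem ht)).1, fun h => ha (h2 a (Finset.mem_insert_self _ _) t
        (Finset.mem_insert_of_mem ht) h ▸ ht)⟩
    rw [e1, Nat.cast_le] at htr
    have e2 : (fun j => ((insert a T).filter (l · = j)).card) =
        (fun j => (T.filter (l · = j)).card) + Pi.single (l a) 1 := by
      funext j
      rw [Finset.filter_insert, Pi.add_apply, Pi.single_apply]
      by_cases e : l a = j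
      · rw [if_pos e, if_pos e.symm, Finset.card_insert_of_notMem (by simp [ha])]
      · rw [if_neg e, if_neg (Ne.symm e), add_zero]
    have := c4 (K := K) (β := fun j => (T.filter (l · = j)).card) (l := l a) (fun j hj => by
      rw [Finset.card_eq_zero, Finset.filter_eq_empty_iff]
      exact fun t ht e => (hmin t ht).not_gt (e ▸ hj)) htr hδ d
    rw [e2, Finset.inf_insert]
    have h3 := hG d
    split_ifs at this with h
    · obtain ⟨e, rfl⟩ := Nat.exists_eq_add_of_le h
      have h4 := cd_step (Q a) (T.inf Q) hF hFQ (fun g hg => by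
        rw [Submodule.mem_finsetInf] at hg ⊢
        exact fun t ht => ((h1 t (Finset.mem_insert_of_mem ht)).1.mem_or_mem (hg t ht)).resolve_left
          (hFT t ht)) e
      have h5 := ih e
      rw [Nat.add_sub_cancel_left] at this
      omega
    · have := cd_mono (inf_le_left : Q a ⊓ T.inf Q ≤ Q a) d
      omega

end Pool.Agent.H.MP_a68a03_ag
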