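import Pool.Agent.H.MP_a68a03_ag.C

set_option autoImplicit false
open MvPolynomial Module

namespace Pool.Agent.H.MP_a68a03_ag
universe v
variable {L : Type v} [Field L] {N m : ℕ}

attribute [local instance] MvPolynomial.gradedAlgebra in
theorem core (P : Ideal (S N L)) (hP : P.IsPrime) : ∃ Q : Ideal (S N L), Q ≤ P ∧ Q.IsPrime ∧ Hg Q ∧
    ∀ f i, f.IsHomogeneous i → f ∈ P → f ∈ Q :=
  ⟨(P.homogeneousCore (homogeneousSubmodule (Fin N) L)).toIdeal, Ideal.toIdeal_homogeneousCore_le _ _,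
    hP.homogeneousCore, fun f hf i => by
      have := (P.homogeneousCore (homogeneousSubmodule (Fin N) L)).isHomogeneous i hf
      rwa [show (DirectSum.decompose (homogeneousSubmodule (Fin N) L) f i : S N L) =
        homogeneousComponent i f from decomposition.decompose'_apply f i] at this,
    fun f i h hf => Ideal.mem_homogeneousCore_of_homogeneous_of_mem ⟨i, h⟩ hf⟩

theorem hg_min {ι : Type*} {F : ι → S N L} {d : ℕ} (hF : ∀ i, (F i).IsHomogeneous d) {P : Ideal (S N L)}
    (hP : P ∈ (Ideal.span (Set.range F)).minimalPrimes) : Hg P := by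
  obtain ⟨Q, h1, h2, h3, h4⟩ := core P hP.1.1
  have : P ≤ Q := hP.2 ⟨h2, Ideal.span_le.mpr (by
    rintro _ ⟨i, rfl⟩; exact h4 _ d (hF i) (hP.1.2 (Ideal.subset_span ⟨i, rfl⟩)))⟩ h1
  rwa [le_antisymm this h1]

theorem kt (P : Ideal (S N L)) [hP : P.IsPrime] {k : ℕ} (h : ringKrullDim (S N L ⧸ P) = k) :
    (k : Cardinal) ≤ Algebra.trdeg L (S N L ⧸ P) := by
  obtain ⟨s, -, g, h1, h2⟩ := exists_integral_inj_algHom_of_quotient P hP.ne_top
  rw [trdeg_of g h1 h2, Nat.cast_le]
  letI : Algebra (S s L) (S N L ⧸ P) := g.toRingHom.toAlgebra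
  haveI : Algebra.IsIntegral (S s L) (S N L ⧸ P) := ⟨h2⟩
  have : ringKrullDim (S N L ⧸ P) ≤ ringKrullDim (S s L) :=
    Order.krullDim_le_of_strictMono (PrimeSpectrum.comap (algebraMap (S s L) (S N L ⧸ P)))
      fun p q hpq => Ideal.IsIntegral.comap_lt_comap (R := S s L) (I := p.asIdeal) (J := q.asIdeal) hpq
  rw [h, MvPolynomial.ringKrullDim_of_isNoetherianRing, ringKrullDim_eq_zero_of_field] at this
  simpa using this

theorem li_map {k : Type*} [Field k] [Algebra k L] {ι : Type*} [Fintype ι] {F : ι → MvPolynomial (Fin N) k}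
    (h : LinearIndependent k F) : LinearIndependent L fun i => map (algebraMap k L) (F i) := by
  rw [Fintype.linearIndependent_iff] at h ⊢
  intro g hg i
  rw [← Module.forall_dual_apply_eq_zero_iff k]
  intro φ
  refine h (fun i => φ (g i)) ?_ i
  ext s
  have := congrArg (fun p => φ (coeff s p)) hg
  simp only [coeff_sum, coeff_smul, coeff_map, smul_eq_mul, map_sum, coeff_zero, map_zero] at this ⊢
  rw [← this]
  refine Finset.sum_congr rfl fun i _ => ?_
  rw [mul_comm (g i), ← Algebra.smul_def, map_smul, smul_eq_mul, mul_comm]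

theorem bc (P : Ideal (S N L)) [hP : P.IsPrime] (hh : Hg P) : ∃ Q : Ideal (S N (AlgebraicClosure L)),
    Q.IsPrime ∧ Hg Q ∧ (∀ f, map (algebraMap L _) f ∈ Q ↔ f ∈ P) ∧
      Algebra.trdeg L (S N L ⧸ P) ≤ Algebra.trdeg (AlgebraicClosure L) (S N (AlgebraicClosure L) ⧸ Q) := by
  let K := AlgebraicClosure L
  let Ω := AlgebraicClosure (FractionRing (S N L ⧸ P))
  let ξ : S N L →ₐ[L] Ω := (IsScalarTower.toAlgHom L (S N L ⧸ P) Ω).comp (Ideal.Quotient.mkₐ L P)
  have hξ : ∀ f, ξ f = 0 ↔ f ∈ P := fun f => by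
    rw [← Ideal.Quotient.eq_zero_iff_mem]
    refine map_eq_zero_iff (algebraMap (S N L ⧸ P) Ω) ?_
    rw [IsScalarTower.algebraMap_eq (S N L ⧸ P) (FractionRing (S N L ⧸ P)) Ω]
    exact (algebraMap (FractionRing (S N L ⧸ P)) Ω).injective.comp (IsFractionRing.injective _ _)
  let j : K →ₐ[L] Ω := IsAlgClosed.lift
  let η : S N K →+* Ω := eval₂Hom j.toRingHom fun l => ξ (X l)
  have hη : ∀ f, η (map (algebraMap L K) f) = ξ f := by
    intro f
    induction f using MvPolynomial.induction_on with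
    | C r => simp [η]
    | add p q hp hq => simp only [map_add, hp, hq]
    | mul_X p i hp => rw [map_mul, map_mul, map_mul, hp, map_X]; simp [η]
  obtain ⟨Q, h1, h2, h3, h4⟩ := core (RingHom.ker η) (RingHom.ker_isPrime η)
  have h5 : ∀ f, map (algebraMap L K) f ∈ Q ↔ f ∈ P := fun f => by
    refine ⟨fun h => (hξ f).mp ((hη f).symm.trans (h1 h)), fun h => ?_⟩
    rw [← sum_homogeneousComponent f, map_sum]
    exact Q.sum_mem fun i _ => h4 _ i ((homogeneousComponent_isHomogeneous i f).map _)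
      ((hη _).trans ((hξ _).mpr (hh f h i)))
  refine ⟨Q, h2, h3, h5, ?_⟩
  let g : (S N L ⧸ P) →ₐ[L] (S N K ⧸ Q) := Ideal.Quotient.liftₐ P
    ((Ideal.Quotient.mkₐ L Q).comp (mapAlgHom (Algebra.ofId L K))) fun f hf =>
      Ideal.Quotient.eq_zero_iff_mem.mpr ((h5 f).mpr hf)
  have hg : Function.Injective g := by
    rw [injective_iff_map_eq_zero]
    intro f hf
    obtain ⟨f, rfl⟩ := Ideal.Quotient.mk_surjective f
    exact Ideal.Quotient.eq_zero_iff_mem.mpr ((h5 f).mp (Ideal.Quotient.eq_zero_iff_mem.mp hf))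
  refine (trdeg_le_of_injective g hg).trans_eq ?_
  rw [← trdeg_add_eq L K (A := S N K ⧸ Q), trdeg_eq_zero (R := L), zero_add]

/-- The minimal primes of `I` whose quotient has Krull dimension `m - i`. -/
def comps (I : Ideal (S (m + 1) L)) (i : Fin m) : Set (Ideal (S (m + 1) L)) :=
  {P | P ∈ I.minimalPrimes ∧ ringKrullDim (S (m + 1) L ⧸ P) = (m - i : ℕ)}

theorem ubL {r d : ℕ} (F : Fin r → S (m + 1) L) (hF : ∀ i, (F i).IsHomogeneous d)
    (hli : LinearIndependent L F) (β : Fin m → ℕ)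
    (hβ : ∀ j, β j ≤ (comps (Ideal.span (Set.range F)) j).ncard) :
    r + CC β d ≤ ((Finset.univ : Finset (Fin (m + 1))).finsuppAntidiag d).card := by
  classical
  let K := AlgebraicClosure L
  have hf : ∀ j, ∃ f : Fin (β j) → Ideal (S (m + 1) L), Function.Injective f ∧
      ∀ x, f x ∈ comps (Ideal.span (Set.range F)) j := fun j => by
    haveI : Finite (comps (Ideal.span (Set.range F)) j) :=
      (Ideal.finite_minimalPrimes_of_isNoetherianRing _ _).subset fun P hP => hP.1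
    haveI := Fintype.ofFinite (comps (Ideal.span (Set.range F)) j)
    obtain ⟨e⟩ := Function.Embedding.nonempty_of_card_le (α := Fin (β j))
      (β := comps (Ideal.span (Set.range F)) j) (by
        rw [Fintype.card_fin, ← Nat.card_eq_fintype_card]; exact hβ j)
    exact ⟨fun x => e x, Subtype.val_injective.comp e.injective, fun x => (e x).2⟩
  choose f hf1 hf2 using hf
  choose Q h1 h2 h3 h4 using fun t : Σ j, Fin (β j) =>
    @bc _ _ _ (f t.1 t.2) (hf2 t.1 t.2).1.1.1 (hg_min hF (hf2 t.1 t.2).1)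
  have := ub Q Sigma.fst Finset.univ (fun t _ => ⟨h1 t, h2 t,
    (@kt _ _ _ _ (hf2 t.1 t.2).1.1.1 _ (hf2 t.1 t.2).2).trans (h4 t)⟩) (fun s _ t _ h => by
      obtain ⟨i, x⟩ := s
      obtain ⟨j, y⟩ := t
      have h5 : f i x ≤ f j y := fun g hg => (h3 ⟨j, y⟩ g).mp (h ((h3 ⟨i, x⟩ g).mpr hg))
      have h6 : f i x = f j y := le_antisymm h5 ((hf2 j y).1.2 (hf2 i x).1.1 h5)
      have h7 := (hf2 i x).2
      rw [h6, (hf2 j y).2, Nat.cast_inj] at h7
      obtain rfl : i = j := Fin.ext (by omega)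
      rw [hf1 i h6]) d
  have e : (fun j => (Finset.univ.filter (fun t : Σ j, Fin (β j) => t.1 = j)).card) = β := by
    funext j
    rw [Finset.card_filter, Fintype.sum_sigma]
    simp [apply_ite Finset.card]
  rw [e, hv, fr] at this
  refine le_trans (Nat.add_le_add_right ?_ _) this
  have h5 := finrank_span_eq_card (li_map (L := K) hli)
  rw [Fintype.card_fin] at h5
  rw [← h5]
  refine Submodule.finrank_mono (Submodule.span_le.mpr ?_)
  rintro _ ⟨i, rfl⟩
  refine ⟨(hF i).map _, Ideal.Quotient.eq_zero_iff_mem.mpr ?_⟩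
  rw [Submodule.mem_finsetInf]
  exact fun t _ => (h3 t _).mpr ((hf2 t.1 t.2).1.1.2 (Ideal.subset_span ⟨i, rfl⟩))

end Pool.Agent.H.MP_a68a03_ag
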