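import Pool.Agent.H.MP_a68a03_ag.D

set_option autoImplicit false
open MvPolynomial Module

namespace Pool.Agent.H.MP_a68a03_ag
universe v
variable {L : Type v} [Field L] {m d : ℕ}

noncomputable def lf {k : Type*} [Field k] (a : ℕ → k) (i : Fin m) (c : ℕ) : MvPolynomial (Fin (m + 1)) k :=
  X i.castSucc - C (a c) * X (Fin.last m)

noncomputable def FF {k : Type*} [Field k] (a : ℕ → k) (γ : Fin (m + 1) →₀ ℕ) :
    MvPolynomial (Fin (m + 1)) k :=
  X (Fin.last m) ^ γ (Fin.last m) * ∏ i : Fin m, ∏ c ∈ Finset.range (γ i.castSucc), lf a i c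

section
variable {k : Type*} [Field k] (a : ℕ → k)

theorem FF_hom (γ : Fin (m + 1) →₀ ℕ) : (FF a γ).IsHomogeneous (∑ i, γ i) := by
  have h : ∀ (i : Fin m) c, (lf a i c).IsHomogeneous 1 := fun i c =>
    (isHomogeneous_X k _).sub ((isHomogeneous_X k _).C_mul _)
  have := ((isHomogeneous_X k (Fin.last m)).pow (γ (Fin.last m))).mul
    (IsHomogeneous.prod Finset.univ _ _ fun (i : Fin m) _ =>
      IsHomogeneous.prod (Finset.range (γ i.castSucc)) _ _ fun c _ => h i c)
  rw [Fin.sum_univ_castSucc, add_comm (∑ i : Fin m, _)]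
  simpa [FF] using this

theorem FF_map [Algebra k L] (γ : Fin (m + 1) →₀ ℕ) :
    map (algebraMap k L) (FF a γ) = FF (fun c => algebraMap k L (a c)) γ := by
  simp [FF, lf]

theorem FF_li (ha : ∀ i ≤ d, ∀ j ≤ d, a i = a j → i = j) {ι : Type*} [Fintype ι]
    (e : ι → (Fin (m + 1) →₀ ℕ)) (he : Function.Injective e) (hd : ∀ t, ∑ i, e t i = d) :
    LinearIndependent k fun t => FF a (e t) := by
  classical
  rw [Fintype.linearIndependent_iff]
  intro g hg
  have hev : ∀ γ η : Fin (m + 1) →₀ ℕ, eval (Fin.lastCases 1 fun i => a (γ i.castSucc)) (FF a η) =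
      ∏ i : Fin m, ∏ c ∈ Finset.range (η i.castSucc), (a (γ i.castSucc) - a c) := by
    intro γ η; simp [FF, lf]
  suffices ∀ n t, ∑ i : Fin m, e t i.castSucc = n → g t = 0 from fun t => this _ t rfl
  intro n
  induction n using Nat.strong_induction_on with
  | _ n ih =>
  intro t ht
  have := congrArg (eval (Fin.lastCases 1 fun i => a (e t i.castSucc))) hg
  rw [map_sum, map_zero, Finset.sum_eq_single t (fun s _ hs => ?_) (by simp), smul_eval, hev] at this
  · refine (mul_eq_zero.mp this).resolve_right (Finset.prod_ne_zero_iff.mpr fun i _ =>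
      Finset.prod_ne_zero_iff.mpr fun c hc h => ?_)
    have h1 : e t i.castSucc ≤ d := hd t ▸ Finset.single_le_sum (fun _ _ => Nat.zero_le _) (Finset.mem_univ _)
    have h2 := Finset.mem_range.mp hc
    have := ha _ h1 c (by omega) (sub_eq_zero.mp h)
    omega
  · rw [smul_eval, hev]
    by_contra h
    obtain ⟨h1, h2⟩ := mul_ne_zero_iff.mp h
    have h3 : ∀ i : Fin m, e s i.castSucc ≤ e t i.castSucc := fun i => not_lt.mp fun h' =>
      Finset.prod_ne_zero_iff.mp (Finset.prod_ne_zero_iff.mp h2 i (Finset.mem_univ _)) _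
        (Finset.mem_range.mpr h') (sub_self _)
    rcases (Finset.sum_le_sum fun i (_ : i ∈ Finset.univ) => h3 i).lt_or_eq with h4 | h4
    · exact h1 (ih _ (ht ▸ h4) s rfl)
    · have h5 := (Finset.sum_eq_sum_iff_of_le fun i _ => h3 i).mp h4
      have h6 := (hd s).trans (hd t).symm
      rw [Fin.sum_univ_castSucc, Fin.sum_univ_castSucc, h4, Nat.add_left_cancel_iff] at h6
      exact hs (he (Finsupp.ext (Fin.lastCases h6 fun i => h5 i (Finset.mem_univ _))))
end

variable (a : ℕ → L) (ν : Fin (m + 1) →₀ ℕ)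

theorem lastm (i : Fin m) : Fin.last m ∈ Finset.Ioi i.castSucc := Finset.mem_Ioi.mpr (Fin.castSucc_lt_last i)

noncomputable def th (i : Fin m) (c : ℕ) (l : Fin (m + 1)) : MvPolynomial (Finset.Ioi i.castSucc) L :=
  if h : l ∈ Finset.Ioi i.castSucc then X ⟨l, h⟩
  else C (a (if l = i.castSucc then c else ν l)) * X ⟨Fin.last m, lastm i⟩

noncomputable def PP (i : Fin m) (c : ℕ) : Ideal (S (m + 1) L) :=
  RingHom.ker (aeval (th a ν i c) : S (m + 1) L →ₐ[L] _)

instance (i : Fin m) (c : ℕ) : (PP a ν i c).IsPrime := RingHom.ker_isPrime _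

theorem PP_dim (i : Fin m) (c : ℕ) : ringKrullDim (S (m + 1) L ⧸ PP a ν i c) = (m - i : ℕ) := by
  have hs : Function.Surjective (aeval (th a ν i c) : S (m + 1) L →ₐ[L] _) := fun f =>
    ⟨rename Subtype.val f, by
      rw [aeval_rename, show th a ν i c ∘ Subtype.val = X from funext fun l => dif_pos l.2, aeval_X_left_apply]⟩
  refine (ringKrullDim_eq_of_ringEquiv (Ideal.quotientKerAlgEquivOfSurjective hs).toRingEquiv).trans ?_
  rw [MvPolynomial.ringKrullDim_of_isNoetherianRing, ringKrullDim_eq_zero_of_field, Nat.card_eq_fintype_card,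
    Fintype.card_coe, Fin.card_Ioi]
  simp

theorem PP_le {i : Fin m} {c : ℕ} {P : Ideal (S (m + 1) L)} (h1 : ∀ l < i, lf a l (ν l.castSucc) ∈ P)
    (h2 : lf a i c ∈ P) : PP a ν i c ≤ P := by
  intro f hf
  have : (Ideal.Quotient.mkₐ L P).comp ((rename Subtype.val).comp (aeval (th a ν i c))) =
      Ideal.Quotient.mkₐ L P := MvPolynomial.algHom_ext fun l => by
    simp only [AlgHom.comp_apply, aeval_X, th, Ideal.Quotient.mkₐ_eq_mk]
    split_ifs with h h'
    · simp
    · subst h'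
      rw [eq_comm, Ideal.Quotient.eq]; simpa [lf] using h2
    · have h3 : l < i.castSucc := lt_of_le_of_ne (by simpa using h) h'
      obtain ⟨l, rfl⟩ := Fin.exists_castSucc_eq.mpr (h3.trans (Fin.castSucc_lt_last i)).ne
      rw [eq_comm, Ideal.Quotient.eq]; simpa [lf] using h1 l (by simpa using h3)
  rw [← Ideal.Quotient.eq_zero_iff_mem, ← Ideal.Quotient.mkₐ_eq_mk L, ← this, AlgHom.comp_apply,
    AlgHom.comp_apply, show aeval (th a ν i c) f = 0 from hf, map_zero, map_zero]

theorem lf_mem {i l : Fin m} {c c' : ℕ} : lf a l c' ∈ PP a ν i c ↔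
    l ≤ i ∧ a (if l = i then c else ν l.castSucc) = a c' := by
  rw [PP, RingHom.mem_ker, lf, map_sub, map_mul, aeval_X, aeval_X, aeval_C, algebraMap_eq, th, th,
    dif_pos (lastm i)]
  split_ifs with h h1 h2 h2
  all_goals try (exfalso; simp_all; done)
  · refine iff_of_false (fun h' => ?_) (fun h' => h'.1.not_gt (by simpa using h))
    simpa [(Fin.castSucc_lt_last l).ne'] using congrArg (eval (Pi.single ⟨_, h⟩ 1)) h'
  all_goals
    rw [← sub_mul, ← map_sub, mul_eq_zero, or_iff_left (X_ne_zero _), C_eq_zero, sub_eq_zero,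
      and_iff_right (by simpa using h)]

theorem z_not (i : Fin m) (c : ℕ) : X (Fin.last m) ∉ PP a ν i c := by
  rw [PP, RingHom.mem_ker, aeval_X, th, dif_pos (lastm i)]
  exact X_ne_zero _

def ge (ν γ : Fin (m + 1) →₀ ℕ) : Prop := γ = ν ∨ ∃ i, (∀ j < i, ν j = γ j) ∧ ν i < γ i

theorem lf_dvd {γ : Fin (m + 1) →₀ ℕ} {l : Fin m} {c : ℕ} (h : c < γ l.castSucc) : lf a l c ∣ FF a γ :=
  ((Finset.dvd_prod_of_mem _ (Finset.mem_range.mpr h)).trans
    (Finset.dvd_prod_of_mem (fun i : Fin m => ∏ c ∈ Finset.range (γ i.castSucc), lf a i c)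
      (Finset.mem_univ l))).mul_left _

theorem FF_mem {γ : Fin (m + 1) →₀ ℕ} (h : ge ν γ) {i : Fin m} {c : ℕ} (hc : c < ν i.castSucc) :
    FF a γ ∈ PP a ν i c := by
  have h0 : lf a i c ∈ PP a ν i c := (lf_mem a ν).mpr ⟨le_rfl, by simp⟩
  rcases h with rfl | ⟨l, h1, h2⟩
  · exact Ideal.mem_of_dvd _ (lf_dvd a hc) h0
  rcases lt_trichotomy l i.castSucc with h | rfl | h
  · obtain ⟨l, rfl⟩ := Fin.exists_castSucc_eq.mpr (h.trans (Fin.castSucc_lt_last i)).ne
    have h' : l < i := by simpa using h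
    exact Ideal.mem_of_dvd _ (lf_dvd a h2) ((lf_mem a ν).mpr ⟨h'.le, by rw [if_neg h'.ne]⟩)
  · exact Ideal.mem_of_dvd _ (lf_dvd a (hc.trans h2)) h0
  · exact Ideal.mem_of_dvd _ (lf_dvd a (h1 _ h ▸ hc)) h0

theorem key {P : Ideal (S (m + 1) L)} (hP : P.IsPrime) {γ : Fin (m + 1) →₀ ℕ} (h : FF a γ ∈ P) :
    (γ (Fin.last m) ≠ 0 ∧ X (Fin.last m) ∈ P) ∨ ∃ l c, c < γ (Fin.castSucc l) ∧ lf a l c ∈ P := by
  rcases hP.mem_or_mem h with h | h
  · refine Or.inl ⟨fun h0 => hP.ne_top ((Ideal.eq_top_iff_one _).mpr (by simpa [h0] using h)),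
      hP.mem_of_pow_mem _ h⟩
  · obtain ⟨l, -, h⟩ := Ideal.IsPrime.prod_mem_iff.mp h
    obtain ⟨c, hc, h⟩ := Ideal.IsPrime.prod_mem_iff.mp h
    exact Or.inr ⟨l, c, Finset.mem_range.mp hc, h⟩

theorem cover (hν : ∑ i, ν i = d) {P : Ideal (S (m + 1) L)} (hP : P.IsPrime)
    (hF : ∀ γ : Fin (m + 1) →₀ ℕ, ∑ i, γ i = d → ge ν γ → FF a γ ∈ P) :
    (∃ i c, c < ν (Fin.castSucc i) ∧ PP a ν i c ≤ P) ∨ ∀ l, X l ∈ P := by
  classical
  rw [or_iff_not_imp_left]
  intro H0
  have H : ∀ (i : Fin m) c, c < ν i.castSucc → (∀ l < i, lf a l (ν l.castSucc) ∈ P) → lf a i c ∉ P :=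
    fun i c hc h1 h2 => H0 ⟨i, c, hc, PP_le a ν h1 h2⟩
  by_cases hz : X (Fin.last m) ∈ P
  · have e : ∀ (l : Fin m) c, lf a l c ∈ P ↔ X l.castSucc ∈ P := fun l c =>
      Submodule.sub_mem_iff_left _ (P.mul_mem_left _ hz)
    suffices ∀ i : Fin m, X i.castSucc ∈ P from Fin.lastCases hz this
    intro i
    induction i using WellFoundedLT.induction with
    | ind i ih =>
    have h0 : ∀ l < i.castSucc, ν l = 0 := fun l hl => by
      obtain ⟨l, rfl⟩ := Fin.exists_castSucc_eq.mpr (hl.trans (Fin.castSucc_lt_last i)).ne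
      have hl' : l < i := by simpa using hl
      by_contra h
      exact H l 0 (Nat.pos_of_ne_zero h) (fun j hj => (e _ _).mpr (ih j (hj.trans hl'))) ((e _ _).mpr (ih l hl'))
    have h1 : ge ν (Finsupp.single i.castSucc d) := by
      have h2 : ν i.castSucc ≤ d := hν ▸ Finset.single_le_sum (fun _ _ => Nat.zero_le _) (Finset.mem_univ _)
      rcases h2.lt_or_eq with h2 | h2
      · exact Or.inr ⟨i.castSucc, fun j hj => by simp [h0 j hj, hj.ne], by simpa using h2⟩
      · have h3 : ∀ j, (Finsupp.single i.castSucc d) j ≤ ν j := fun j => by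
          rw [Finsupp.single_apply]; split_ifs with h
          · rw [← h, h2]
          · exact Nat.zero_le _
        exact Or.inl (Finsupp.ext fun j => (Finset.sum_eq_sum_iff_of_le fun j _ => h3 j).mp
          (by simp [hν, Finsupp.single_apply]) j (Finset.mem_univ _))
    rcases key a hP (hF _ (by simp [Finsupp.single_apply]) h1) with h | ⟨l, c, h2, h3⟩
    · simp [Finsupp.single_apply, (Fin.castSucc_lt_last i).ne] at h
    · obtain rfl : i = l := by
        by_contra h; simp [Finsupp.single_apply, h] at h2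
      exact (e _ _).mp h3
  · exfalso
    obtain ⟨l0, c0, h01, h02⟩ := (key a hP (hF ν hν (Or.inl rfl))).resolve_left fun h => hz h.2
    suffices ∀ i : Fin m, lf a i (ν i.castSucc) ∈ P from H l0 c0 h01 (fun l _ => this l) h02
    intro i
    induction i using WellFoundedLT.induction with
    | ind i ih =>
    have H' : ∀ l ≤ i, ∀ c < ν l.castSucc, lf a l c ∉ P := fun l hl c hc =>
      H l c hc fun j hj => ih j (hj.trans_le hl)
    let w := ν.filter (· ≤ i.castSucc)
    have hw : ∀ j, w j ≤ ν j := fun j => by simp only [w, Finsupp.filter_apply]; split_ifs <;> simp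
    rcases (Finset.sum_le_sum fun j (_ : j ∈ Finset.univ) => hw j).lt_or_eq with h | h
    · obtain ⟨t, ht⟩ := Nat.exists_eq_add_of_lt h
      have h1 : ∀ j : Fin m, (w + Finsupp.single i.castSucc 1 + Finsupp.single (Fin.last m) t : _ →₀ ℕ)
          j.castSucc = (if j ≤ i then ν j.castSucc else 0) + if i = j then 1 else 0 := fun j => by
        simp [w, Finsupp.filter_apply, Finsupp.single_apply, (Fin.castSucc_lt_last j).ne']
      obtain ⟨l, c, h2, h3⟩ := (key a hP (hF (w + Finsupp.single i.castSucc 1 + Finsupp.single (Fin.last m) t)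
        (by
          simp only [Finsupp.coe_add, Pi.add_apply, Finset.sum_add_distrib, Finsupp.single_apply,
            Finset.sum_ite_eq, Finset.mem_univ, if_true]
          omega)
        (Or.inr ⟨i.castSucc, fun j hj => by
          obtain ⟨j, rfl⟩ := Fin.exists_castSucc_eq.mpr (hj.trans (Fin.castSucc_lt_last i)).ne
          have hj' : j < i := by simpa using hj
          rw [h1, if_pos hj'.le, if_neg hj'.ne', add_zero], by simp [h1]⟩))).resolve_left fun h => hz h.2
      rw [h1] at h2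
      rcases lt_trichotomy l i with h4 | rfl | h4
      · rw [if_pos h4.le, if_neg h4.ne', add_zero] at h2
        exact (H' l h4.le c h2 h3).elim
      · rw [if_pos le_rfl, if_pos rfl] at h2
        rcases (Nat.lt_succ_iff.mp h2).lt_or_eq with h4 | rfl
        · exact (H' l le_rfl c h4 h3).elim
        · exact h3
      · simp [h4.not_ge, h4.ne] at h2
    · have h1 := (Finset.sum_eq_sum_iff_of_le fun j _ => hw j).mp h l0.castSucc (Finset.mem_univ _)
      refine (H' l0 (by_contra fun h2 => ?_) c0 h01 h02).elim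
      simp only [w, Finsupp.filter_apply, Fin.castSucc_le_castSucc_iff, if_neg h2] at h1
      omega

theorem comps_eq (ha : ∀ i ≤ d, ∀ j ≤ d, a i = a j → i = j) (hν : ∑ i, ν i = d) {ι : Type*}
    (e : ι → (Fin (m + 1) →₀ ℕ)) (h1 : ∀ t, ge ν (e t))
    (h2 : ∀ γ : Fin (m + 1) →₀ ℕ, ∑ i, γ i = d → ge ν γ → ∃ t, e t = γ) (i : Fin m) :
    (comps (Ideal.span (Set.range fun t => FF a (e t))) i).ncard = ν i.castSucc := by
  set I := Ideal.span (Set.range fun t => FF a (e t))
  have hle : ∀ j, ν j ≤ d := fun j => hν ▸ Finset.single_le_sum (fun _ _ => Nat.zero_le _) (Finset.mem_univ _)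
  have hI : ∀ (i : Fin m) c, c < ν i.castSucc → I ≤ PP a ν i c := fun i c hc => Ideal.span_le.mpr (by
    rintro _ ⟨t, rfl⟩; exact FF_mem a ν (h1 t) hc)
  have hc : ∀ P : Ideal (S (m + 1) L), P.IsPrime → I ≤ P → _ := fun P hP h => cover a ν hν hP fun γ h3 h4 => by
    obtain ⟨t, rfl⟩ := h2 γ h3 h4
    exact h (Ideal.subset_span ⟨t, rfl⟩)
  have hinj : ∀ (i j : Fin m) c c', c < ν i.castSucc → c' < ν j.castSucc → PP a ν i c ≤ PP a ν j c' →
      i = j ∧ c = c' := fun i j c c' h3 h4 h => by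
    obtain ⟨h5, h6⟩ := (lf_mem a ν).mp (h ((lf_mem a ν (l := i) (c' := c)).mpr ⟨le_rfl, by simp⟩))
    split_ifs at h6 with h7
    · exact ⟨h7, (ha _ (h4.le.trans (hle _)) _ (h3.le.trans (hle _)) h6).symm⟩
    · exact (h3.ne' (ha _ (hle _) _ (h3.le.trans (hle _)) h6)).elim
  have : comps I i = PP a ν i '' Set.Iio (ν i.castSucc) := by
    ext P
    constructor
    · rintro ⟨h3, h4⟩
      rcases hc P h3.1.1 h3.1.2 with ⟨j, c, h5, h6⟩ | h5
      · obtain rfl : P = PP a ν j c := le_antisymm (h3.2 ⟨inferInstance, hI j c h5⟩ h6) h6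
        rw [PP_dim, Nat.cast_inj] at h4
        obtain rfl : i = j := Fin.ext (by omega)
        exact ⟨c, h5, rfl⟩
      · have h6 : Function.Surjective (algebraMap L (S (m + 1) L ⧸ P)) := fun f => by
          obtain ⟨f, rfl⟩ := Ideal.Quotient.mk_surjective f
          induction f using MvPolynomial.induction_on with
          | C r => exact ⟨r, rfl⟩
          | add p q hp hq =>
            obtain ⟨x, hx⟩ := hp
            obtain ⟨y, hy⟩ := hq
            exact ⟨x + y, by rw [map_add, map_add, hx, hy]⟩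
          | mul_X p l _ => exact ⟨0, by
              rw [map_zero, eq_comm, Ideal.Quotient.eq_zero_iff_mem]; exact P.mul_mem_left _ (h5 l)⟩
        have := ringKrullDim_le_of_surjective _ h6
        rw [h4, ringKrullDim_eq_zero_of_field] at this
        have h7 : m - i ≤ 0 := by exact_mod_cast this
        omega
    · rintro ⟨c, h3, rfl⟩
      refine ⟨⟨⟨inferInstance, hI i c h3⟩, fun P hP h4 => ?_⟩, PP_dim a ν i c⟩
      rcases hc P hP.1 hP.2 with ⟨j, c', h5, h6⟩ | h5
      · obtain ⟨rfl, rfl⟩ := hinj j i c' c h5 h3 (h6.trans h4)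
        exact h6
      · exact (z_not a ν i c (h4 (h5 _))).elim
  rw [this, Set.InjOn.ncard_image (s := Set.Iio (ν i.castSucc))
    fun c h3 c' h4 h => (hinj i i c c' h3 h4 h.le).2, Set.ncard_Iio_nat]

end Pool.Agent.H.MP_a68a03_ag
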